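import Pool.Agent.W401.Gal.DSMain

/-!
# Galois representations attached to coefficients of bounded mean square

The Deligne-Serre theorem for `GL_n`, and independence of `ℓ`, over any number field `K`: the case of
forms of weight zero of the question on Galois representations attached to algebraic cuspidal
automorphic representations of `GL_n`.
-/

set_option autoImplicit false

namespace Pool.Agent.Results.MP_ef641d_nt.BoundedMeanSquare

open NumberField IsDedekindDomain Polynomial Filter Topology Pool.Agent.W401.Cheb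
  Pool.Agent.W401.Gal

theorem result (K : Type) [Field K] [NumberField K] (F : Type) [Field F] [NumberField F]
    (n : ℕ) (hn : 0 < n) (S : Set (HeightOneSpectrum (𝓞 K))) (hS : S.Finite)
    (A : HeightOneSpectrum (𝓞 K) → (𝓞 F)[X]) (C : ℝ)
    (hRS : ∀ s : F →+* ℂ, ∀ᶠ N : ℕ in atTop,
      sumsq S (fun v => s ((tc n A v : 𝓞 F) : F)) N ≤ C * Nat.primeCounting N)
    (Λ : Type) [Infinite Λ] (k : Λ → Type) [∀ l, Field (k l)] [∀ l, TopologicalSpace (k l)]
    [∀ l, IsTopologicalRing (k l)] [∀ l, T2Space (k l)] (r : ∀ l, 𝓞 F →+* k l)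
    (hr : ∀ a : 𝓞 F, a ≠ 0 → {l : Λ | r l a = 0}.Finite)
    (ρ : ∀ l, GK K →* GL (Fin n) (k l)) (hcont : ∀ l, Continuous (ρ l))
    (hsem : ∀ l, Semis (ρ l)) (hatt : ∀ l, Attached S A (r l) (ρ l)) (ι : F →+* ℂ)
    (E : Type) [Field E] (j : ℂ →+* E) :
    ∃ ρ' : GK K →* GL (Fin n) E, IsOpen (ρ'.ker : Set (GK K)) ∧ Finite (GK K ⧸ ρ'.ker) ∧
      Semis ρ' ∧ Attached S A (j.comp (ι.comp (algebraMap (𝓞 F) F))) ρ' :=
  main chebK Pool.Agent.W401.Frob.main Pool.Agent.W401.Gal.Prod.main F hn hS A C hRS Λ k r hr ρ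
    hcont hsem hatt ι E j

end Pool.Agent.Results.MP_ef641d_nt.BoundedMeanSquare
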